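import Pool.Agent.Lib.MP_361a6f_ag.FL.E5.DefsX
import Pool.Agent.Lib.MP_361a6f_ag.FL.E.BR.DefsP

/-!
# Theorem EB: Theorem E5 with a place of bad reduction. Data and rows

As Theorem E5, but the space is not the direct sum of six nonzero stable subspaces five of which are
killed by the monodromy `N`. `N = 0` is allowed.
-/

set_option autoImplicit false

open Filter Topology

namespace Pool.Agent.Lib.MP_361a6f_ag.FL.E.EB

/-- Row R4z: row R5p with good words, for six stable subspaces. -/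
def R4zStatement : Prop :=
  ∀ {I : Type} [Fintype I] [DecidableEq I] (S : Submodule ℂ (Matrix I I ℂ))
    (E : Set (Matrix I I ℂ)) (P : Matrix I I ℂ),
    (∀ x ∈ S, ∀ y ∈ S, x * y - y * x ∈ S) → (∀ x ∈ S, x.conjTranspose ∈ S) →
    (∀ e ∈ E, ∀ A ∈ S, e * A = A * e) → (∀ A ∈ S, A.transpose * P + P * A = 0) → IsUnit P →
    ∀ a : I → ℂ, (∀ i, (starRingEnd ℂ) (a i) = a i) → Matrix.diagonal a ∈ S →
    ∀ k : I → ℂ, (∀ i j, a i = a j → k i = k j) →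
    ∀ (τ : I → I) (G : ℤˣ → List I → Prop), (∀ i, τ (τ i) = i) → (∀ i, a (τ i) = -a i) →
    Calc τ a G → (∀ A ∈ S, ∀ i0 j0, mvR τ G i0 j0 A ∈ S) →
    (∀ U : Submodule ℂ (I → ℂ), (∀ A ∈ S, ∀ v ∈ U, A.mulVec v ∈ U) →
      (∀ e ∈ E, ∀ v ∈ U, e.mulVec v ∈ U) →
      (∀ v ∈ U, ∀ w ∈ U, dotProduct v (P.mulVec w) = 0) → U = ⊥) →
    ∀ N ∈ S, N * N = 0 → Matrix.diagonal a * N = 0 →
    (∀ U : Fin 6 → Submodule ℂ (I → ℂ), (∀ i, (∀ A ∈ S, ∀ v ∈ U i, A.mulVec v ∈ U i) ∧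
      (∀ e ∈ E, ∀ v ∈ U i, e.mulVec v ∈ U i)) → (∀ i, U i ≠ ⊥) → iSupIndep U →
      (⨆ i, U i) = ⊤ → (∀ i, i ≠ 0 → ∀ v ∈ U i, N.mulVec v = 0) → False) →
    ∀ (L : ℕ) (u : Ten I L), Even L → (∀ A ∈ S, aT A u = 0) →
      (∀ w, u w ≠ 0 → ∃ ε : ℤˣ, G ε (List.ofFn w) ∧ ∏ j, k (w j) = (((ε : ℤ) : ℝ) : ℂ)) →
      gT (Matrix.diagonal k) u = u

/-- Row W1z: the situation at every level, with the sequence, the calculus and the statement on `N`. -/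
def W1zStatement : Prop :=
  ∀ {I Λ : Type} [Fintype I] [DecidableEq I] [DecidableEq Λ] (D : Dat I Λ)
    (At Bt : (L : ℕ) → Ten I L → Prop) (l : I → ℂ) (Γ : Set (Matrix I I ℂ))
    {β : Type} [Fintype β] (lb : β → ℕ) (b : Tup I lb), CSys D At Bt l Γ lb b → FData D Bt l →
    ∀ m : ℕ, ∃ (ι : Type) (_ : Fintype ι) (len : ι → ℕ) (t s : Tup I len)
      (x : Matrix I I ℂ) (k : I → ℂ), LvlP D At l m len t s x k ∧
      (∃ g : ℕ → Matrix I I ℂ, (∀ j, IsGb D b (g j)) ∧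
        Tendsto (fun j => gS (g j) t) atTop (𝓝 s)) ∧
      (∀ N : Matrix I I ℂ, (∀ i j, N i j ≠ 0 → l i = l j) → (∀ L u, At L u → aT N u = 0) →
        aS N s = 0) ∧
      ∃ G : ℤˣ → List I → Prop, Calc D.τ l G ∧ ∀ i w, s i w ≠ 0 →
        ∃ ε : ℤˣ, G ε (List.ofFn w) ∧ ∏ j, k (w j) = (((ε : ℤ) : ℝ) : ℂ)

/-- the data of Theorem EB -/
structure EBSys {I Λ : Type} [Fintype I] [DecidableEq I] [DecidableEq Λ] (D : Dat I Λ)
    (At Bt : (L : ℕ) → Ten I L → Prop) (l : I → ℂ) (Γ : Set (Matrix I I ℂ)) {β : Type} [Fintype β]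
    (lb : β → ℕ) (b : Tup I lb) (N : Matrix I I ℂ) : Prop extends CSys D At Bt l Γ lb b where
  h1 : ∀ U : Submodule ℂ (I → ℂ), StabU D At Γ U →
    (∀ v ∈ U, ∀ w ∈ U, dotProduct v ((Psi D).mulVec w) = 0) → U = ⊥
  n2 : N * N = 0
  nlie : IsLie D N
  nfix : ∀ L u, At L u → aT N u = 0
  nl : Matrix.diagonal l * N = N
  h6 : ∀ U : Fin 6 → Submodule ℂ (I → ℂ), (∀ i, StabU D At Γ (U i)) → (∀ i, U i ≠ ⊥) →
    iSupIndep U → (⨆ i, U i) = ⊤ → (∀ i, i ≠ 0 → ∀ v ∈ U i, N.mulVec v = 0) → False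

/-- THEOREM EB in coordinates: `ψ` is positive definite on the real span of the system. -/
def ThmEBStatement : Prop :=
  ∀ {I Λ : Type} [Fintype I] [DecidableEq I] [DecidableEq Λ] (D : Dat I Λ)
    (At Bt : (L : ℕ) → Ten I L → Prop) (l : I → ℂ) (Γ : Set (Matrix I I ℂ))
    {β : Type} [Fintype β] (lb : β → ℕ) (b : Tup I lb) (N : Matrix I I ℂ),
    EBSys D At Bt l Γ lb b N → FData D Bt l → ∀ (L : ℕ) (u : Ten I L),
      u ∈ Submodule.span ℝ {u | At L u} → u ≠ 0 → ∃ r : ℝ, 0 < r ∧ psiT D u u = (r : ℂ)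

end Pool.Agent.Lib.MP_361a6f_ag.FL.E.EB
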