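import Pool.Agent.Lib.MP_361a6f_ag.FL.E.BR.LemL

/-!
# Theorem EB: the dual of a type, with a relation on the entries

As `LemL.exists_m`, for the elements of one type all entries of which satisfy a relation that only
depends on the blocks of `diag a`.
-/

set_option autoImplicit false
set_option maxHeartbeats 400000
set_option linter.unusedSectionVars false

open Matrix

namespace Pool.Agent.Lib.MP_361a6f_ag.FL.E.EB

open BR BR.LemL

variable {I : Type} [Fintype I] [DecidableEq I]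

variable {S : Submodule ℂ (Matrix I I ℂ)} {κ a : I → ℂ}

/-- the space of all elements of type `(α, c)` all entries of which satisfy `R` -/
def YR (S : Submodule ℂ (Matrix I I ℂ)) (κ a : I → ℂ) (α : (I → ℂ) → ℂ) (c : ℂ)
    (R : I → I → Prop) : Submodule ℂ (Matrix I I ℂ) where
  carrier := {y | y ∈ YS S κ a α c ∧ ∀ i j, y i j ≠ 0 → R i j}
  add_mem' := by
    rintro x y ⟨hx, hx'⟩ ⟨hy, hy'⟩
    refine ⟨(YS S κ a α c).add_mem hx hy, fun i j hij => ?_⟩
    by_cases h0 : x i j = 0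
    · refine hy' i j fun h1 => hij ?_
      rw [Matrix.add_apply, h0, h1, add_zero]
    · exact hx' i j h0
  zero_mem' := ⟨(YS S κ a α c).zero_mem, fun i j hij => absurd rfl hij⟩
  smul_mem' := by
    rintro r x ⟨hx, hx'⟩
    refine ⟨(YS S κ a α c).smul_mem r hx, fun i j hij => hx' i j fun h0 => hij ?_⟩
    rw [Matrix.smul_apply, h0, smul_zero]

/-- the centraliser of `diag a` acts -/
theorem yr_act (Z : ZSit S κ a) {α : (I → ℂ) → ℂ} {c : ℂ} {R : I → I → Prop}
    (hR : ∀ i j i' j', a i = a i' → a j = a j' → R i j → R i' j') {A y : Matrix I I ℂ}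
    (hA : A ∈ S) (hAa : A * diagonal a = diagonal a * A) (hy : y ∈ YR S κ a α c R) :
    A * y - y * A ∈ YR S κ a α c R := by
  refine ⟨ys_act Z hA hAa hy.1, fun i j hij => ?_⟩
  obtain ⟨k, hk⟩ : ∃ k, (A i k ≠ 0 ∧ y k j ≠ 0) ∨ (y i k ≠ 0 ∧ A k j ≠ 0) := by
    by_contra hc
    push Not at hc
    apply hij
    simp only [Matrix.sub_apply, Matrix.mul_apply]
    have h1 : ∀ k, A i k * y k j = 0 := by
      intro k
      by_cases h0 : A i k = 0
      · simp [h0]
      · rw [(hc k).1 h0, mul_zero]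
    have h2 : ∀ k, y i k * A k j = 0 := by
      intro k
      by_cases h0 : y i k = 0
      · simp [h0]
      · rw [(hc k).2 h0, mul_zero]
    simp only [h1, h2, Finset.sum_const_zero, sub_zero]
  rcases hk with ⟨h1, h2⟩ | ⟨h1, h2⟩
  · exact hR k j i j (entry_comm hAa h1).symm rfl (hy.2 k j h2)
  · exact hR i k i j rfl (entry_comm hAa h2) (hy.2 i k h1)

/-- the real element `M = ∑ [x_b, x_b*]` of the centre -/
theorem exists_MR (Z : ZSit S κ a) (α : (I → ℂ) → ℂ) (c : ℂ) {R : I → I → Prop}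
    (hR : ∀ i j i' j', a i = a i' → a j = a j' → R i j → R i' j') :
    ∃ (d : ℕ) (x : Fin d → Matrix I I ℂ) (T0 : I → ℂ),
      (∀ b, x b ∈ YR S κ a α c R) ∧ (∑ b, (x b * (x b)ᴴ - (x b)ᴴ * x b)) = diagonal T0 ∧
      diagonal T0 ∈ zen S (diagonal a) ∧
      (∀ T, diagonal T ∈ zen S (diagonal a) → ∑ i, T i * T0 i = α T * d) ∧
      (∀ y ∈ YR S κ a α c R, y ≠ 0 → 0 < d) := by
  obtain ⟨d, x, hY, hn, hx⟩ := onb (YR S κ a α c R)
  have hmem : (∑ b, (x b * (x b)ᴴ - (x b)ᴴ * x b)) ∈ S :=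
    S.sum_mem fun b _ => Z.lie _ (hY b).1.1 _ (Z.star _ (hY b).1.1)
  have hcomm : ∀ A ∈ S, A * diagonal a = diagonal a * A →
      A * (∑ b, (x b * (x b)ᴴ - (x b)ᴴ * x b)) =
        (∑ b, (x b * (x b)ᴴ - (x b)ᴴ * x b)) * A := by
    intro A hA hAa
    refine comm_M hY hx (fun y hy => yr_act Z hR hA hAa hy)
      (fun y hy => yr_act Z hR (Z.star _ hA) ?_ hy)
    have h1 := congrArg Matrix.conjTranspose hAa
    rw [Matrix.conjTranspose_mul, Matrix.conjTranspose_mul, conj_a Z] at h1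
    exact h1.symm
  have hzen : (∑ b, (x b * (x b)ᴴ - (x b)ᴴ * x b)) ∈ zen S (diagonal a) :=
    ⟨hmem, (hcomm _ Z.mem rfl).symm, fun A hA hAa => (hcomm A hA hAa).symm⟩
  obtain ⟨T0, hT0⟩ := Z.dia _ hzen
  refine ⟨d, x, T0, hY, hT0, hT0 ▸ hzen, fun T hT => ?_, fun y hy hy0 => ?_⟩
  · have h1 : ∑ i, T i * T0 i = (diagonal T * diagonal T0).trace := by
      rw [Matrix.diagonal_mul_diagonal, Matrix.trace_diagonal]
    have h2 : ∀ b, (diagonal T * (x b * (x b)ᴴ - (x b)ᴴ * x b)).trace = α T := by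
      intro b
      have h3 : (diagonal T * (x b * (x b)ᴴ - (x b)ᴴ * x b)).trace =
          ((diagonal T * x b - x b * diagonal T) * (x b)ᴴ).trace := by
        rw [Matrix.mul_sub, Matrix.sub_mul, Matrix.trace_sub, Matrix.trace_sub,
          ← Matrix.mul_assoc, ← Matrix.mul_assoc, Matrix.trace_mul_comm (diagonal T * (x b)ᴴ),
          ← Matrix.mul_assoc]
      rw [h3, ys_comm (hY b).1 hT, Matrix.smul_mul, Matrix.trace_smul, Matrix.trace_mul_comm, hn,
        smul_eq_mul, mul_one]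
    rw [h1, ← hT0, Finset.mul_sum, Matrix.trace_sum, Finset.sum_congr rfl fun b _ => h2 b,
      Finset.sum_const, Finset.card_univ, Fintype.card_fin, nsmul_eq_mul, mul_comm]
  · rcases Nat.eq_zero_or_pos d with h0 | h0
    · subst h0
      exact absurd (by simpa using hx y hy) hy0
    · exact h0

/-- the diagonal matrix dual to a type, with a relation on the entries -/
theorem exists_mR (Z : ZSit S κ a) {x : Matrix I I ℂ} {α : (I → ℂ) → ℂ} {c : ℂ}
    (hx : HomZ S κ a x α c) {R : I → I → Prop}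
    (hR : ∀ i j i' j', a i = a i' → a j = a j' → R i j → R i' j')
    (hxR : ∀ i j, x i j ≠ 0 → R i j) :
    ∃ (m : I → ℝ) (d : ℝ), 0 < d ∧ diagonal (fun i => (m i : ℂ)) ∈ zen S (diagonal a) ∧
      (∀ T, diagonal T ∈ zen S (diagonal a) → ∑ i, T i * (m i : ℂ) = d * α T) ∧
      (∀ i, 0 < m i → ∃ y l, HomZ S κ a y α c ∧ (∀ i j, y i j ≠ 0 → R i j) ∧ y i l ≠ 0) ∧
      (∀ i, m i < 0 → ∃ y l, HomZ S κ a y α c ∧ (∀ i j, y i j ≠ 0 → R i j) ∧ y l i ≠ 0) := by
  obtain ⟨d, y, T0, hY, hM, h0, hs0, hd⟩ := exists_MR Z α c hR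
  have hm := M_entry hM
  have hT0 : T0 = fun i => ((∑ b, ∑ l, (‖y b i l‖ ^ 2 - ‖y b l i‖ ^ 2) : ℝ) : ℂ) := funext hm
  refine ⟨fun i => ∑ b, ∑ l, (‖y b i l‖ ^ 2 - ‖y b l i‖ ^ 2), d, ?_, ?_, fun T hT => ?_,
    fun i hi => ?_, fun i hi => ?_⟩
  · exact_mod_cast hd _ ⟨ys_of_hom hx, hxR⟩ hx.ne
  · rw [← hT0]
    exact h0
  · have h1 := hs0 T hT
    rw [hT0] at h1
    rw [h1, mul_comm]
    push_cast
    rfl
  · by_contra hc
    push Not at hc
    refine absurd hi (not_lt.2 (Finset.sum_nonpos fun b _ => Finset.sum_nonpos fun l _ => ?_))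
    have h1 : y b i l = 0 := by
      by_contra h2
      exact h2 (hc (y b) l (hom_of_ys (hY b).1 fun h3 => h2 (by rw [h3]; rfl)) (hY b).2)
    rw [h1, norm_zero]
    have := sq_nonneg ‖y b l i‖
    linarith
  · by_contra hc
    push Not at hc
    refine absurd hi (not_lt.2 (Finset.sum_nonneg fun b _ => Finset.sum_nonneg fun l _ => ?_))
    have h1 : y b l i = 0 := by
      by_contra h2
      exact h2 (hc (y b) l (hom_of_ys (hY b).1 fun h3 => h2 (by rw [h3]; rfl)) (hY b).2)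
    rw [h1, norm_zero]
    have := sq_nonneg ‖y b i l‖
    linarith

end Pool.Agent.Lib.MP_361a6f_ag.FL.E.EB
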