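import Pool.Agent.Lib.MP_361a6f_ag.FL.EB.Mr
import Pool.Agent.Lib.MP_361a6f_ag.FL.E.BR.ShareZ
import Pool.Agent.Lib.MP_361a6f_ag.FL.E5.Red

/-!
# Theorem EB: the reduction of words, for the torus `zen`

As `FL/E5/Red.lean`, with the torus `zen` in place of a maximal torus.
-/

set_option autoImplicit false
set_option linter.unusedSectionVars false

open Matrix

namespace Pool.Agent.Lib.MP_361a6f_ag.FL.E.EB.RedZ

open BR LemR ShZ

variable {I : Type} [Fintype I] [DecidableEq I]

/-- a homogeneous element all entries of which are related -/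
structure HomRZ (S : Submodule ℂ (Matrix I I ℂ)) (κ a : I → ℂ) (R : I → I → I → I → Prop)
    (x : Matrix I I ℂ) (α : (I → ℂ) → ℂ) (c : ℂ) : Prop where
  hom : HomZ S κ a x α c
  rel : ∀ l m m' r, x l m ≠ 0 → x m' r ≠ 0 → R l m m' r

/-- the rules for the words -/
structure RulesZ (S : Submodule ℂ (Matrix I I ℂ)) (a : I → ℂ) (R : I → I → I → I → Prop)
    (B : Multiset I → Prop) : Prop where
  cancel : ∀ i j v, (∀ T, Zt S a T → T i + T j = 0) → B (i ::ₘ j ::ₘ v) → B v
  exch : ∀ l m m' r v, R l m m' r → B (l ::ₘ r ::ₘ v) → B (m ::ₘ m' ::ₘ v)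

/-- the relation of the moves is an equivalence relation and only depends on the blocks -/
structure Eqv (a : I → ℂ) (R : I → I → I → I → Prop) : Prop where
  symm : ∀ i j k l, R i j k l → R k l i j
  trans : ∀ i j k l m n, R i j k l → R k l m n → R i j m n
  blk : ∀ x y i j i' j', a i = a i' → a j = a j' → R x y i j → R x y i' j'

/-- an entry of an element of `S` of weight `α` which satisfies `R` -/
structure Mv (S : Submodule ℂ (Matrix I I ℂ)) (a : I → ℂ) (R : I → I → Prop)
    (α : (I → ℂ) → ℂ) (i j : I) : Prop where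
  ent : ∃ y ∈ S, y i j ≠ 0
  wt : ∀ T, Zt S a T → T i - T j = α T
  rel : R i j

/-- the data of `exists_mR` -/
def IsDualR (S : Submodule ℂ (Matrix I I ℂ)) (a : I → ℂ) (R : I → I → Prop)
    (α : (I → ℂ) → ℂ) (m : I → ℝ) : Prop :=
  Zt S a (fun i => (m i : ℂ)) ∧ (∀ T, Zt S a T → ∑ i, T i * (m i : ℂ) = α T) ∧
    (∀ i, 0 < m i → ∃ l, Mv S a R α i l) ∧ (∀ i, m i < 0 → ∃ l, Mv S a R α l i)

variable {S : Submodule ℂ (Matrix I I ℂ)} {κ a : I → ℂ} {R : I → I → I → I → Prop}
  {B : Multiset I → Prop}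

theorem exists_dualR (Z : ZSit S κ a) (hR : Eqv a R) {p : Tri I}
    (hp : HomRZ S κ a R p.1 p.2.1 p.2.2) : ∃ i0 j0 m, IsDualR S a (R i0 j0) p.2.1 m := by
  obtain ⟨i0, j0, h0⟩ : ∃ i j, p.1 i j ≠ 0 := by
    by_contra hc
    push Not at hc
    exact hp.hom.ne (by ext i j; simpa using hc i j)
  obtain ⟨m, d, hd, h1, h2, h3, h4⟩ := exists_mR Z hp.hom (R := R i0 j0)
    (fun i j i' j' hi hj h => hR.blk i0 j0 i j i' j' hi hj h)
    (fun i j hij => hp.rel i0 j0 i j h0 hij)
  have hpos : ∀ i, 0 < d⁻¹ * m i → 0 < m i := fun i hi =>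
    (pos_iff_pos_of_mul_pos hi).1 (inv_pos.2 hd)
  refine ⟨i0, j0, fun i => d⁻¹ * m i, ?_, ?_, fun i hi => ?_, fun i hi => ?_⟩
  · have h5 := zt_smul (S := S) (a := a) ((d : ℂ)⁻¹) h1
    refine (congrArg (Zt S a) ?_).mp h5
    funext i
    rw [Pi.smul_apply, smul_eq_mul]
    push_cast
    rfl
  · intro T hT
    have h5 : ∑ i, T i * ((d⁻¹ * m i : ℝ) : ℂ) = (d : ℂ)⁻¹ * ∑ i, T i * (m i : ℂ) := by
      rw [Finset.mul_sum]
      refine Finset.sum_congr rfl fun i _ => ?_
      push_cast
      ring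
    have h6 : (d : ℂ) ≠ 0 := Complex.ofReal_ne_zero.2 hd.ne'
    rw [h5, h2 T hT, ← mul_assoc, inv_mul_cancel₀ h6, one_mul]
  · obtain ⟨y, l, hy, hyR, hl⟩ := h3 i (hpos i hi)
    exact ⟨l, ⟨y, hy.mem, hl⟩, fun T hT => hy.wt i l hl T hT, hyR i l hl⟩
  · have hi' : d⁻¹ * m i < 0 := hi
    have h7 : m i < 0 := by
      by_contra hc
      push Not at hc
      have := mul_nonneg (inv_pos.2 hd).le hc
      linarith
    obtain ⟨y, l, hy, hyR, hl⟩ := h4 i h7
    exact ⟨l, ⟨y, hy.mem, hl⟩, fun T hT => hy.wt l i hl T hT, hyR l i hl⟩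

/-- the real diagonal matrix dual to a sum of types -/
theorem exists_dual_sumR (Z : ZSit S κ a) (hR : Eqv a R) (s : Multiset (Tri I))
    (hs : ∀ p ∈ s, HomRZ S κ a R p.1 p.2.1 p.2.2) :
    ∃ m : I → ℝ, Zt S a (fun i => (m i : ℂ)) ∧
      (∀ T, Zt S a T → ∑ i, T i * (m i : ℂ) = (s.map fun p => p.2.1 T).sum) ∧
      ∀ i j, 0 < m i + m j → ∃ p ∈ s, ∃ i0 j0, ∃ m' : I → ℝ,
        IsDualR S a (R i0 j0) p.2.1 m' ∧ 0 < m' i + m' j := by
  induction s using Multiset.induction_on with
  | empty =>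
    refine ⟨0, ?_, fun T _ => by simp, fun i j h => by simp at h⟩
    refine (congrArg (Zt S a) ?_).mp zt_zero
    funext i
    simp
  | cons p s ih =>
    obtain ⟨m, h1, h2, h3⟩ := ih fun q hq => hs q (Multiset.mem_cons_of_mem hq)
    obtain ⟨i0, j0, m', h4⟩ := exists_dualR Z hR (hs p (Multiset.mem_cons_self p s))
    refine ⟨fun i => m' i + m i, ?_, fun T hT => ?_, fun i j h => ?_⟩
    · refine (congrArg (Zt S a) ?_).mp (zt_add h4.1 h1)
      funext i
      rw [Pi.add_apply]
      push_cast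
      rfl
    · rw [Multiset.map_cons, Multiset.sum_cons, ← h2 T hT, ← h4.2.1 T hT,
        ← Finset.sum_add_distrib]
      refine Finset.sum_congr rfl fun i _ => ?_
      push_cast
      ring
    · by_cases h5 : 0 < m i + m j
      · obtain ⟨q, hq, i1, j1, m'', h6, h7⟩ := h3 i j h5
        exact ⟨q, Multiset.mem_cons_of_mem hq, i1, j1, m'', h6, h7⟩
      · have h6 : 0 < (m' i + m i) + (m' j + m j) := h
        exact ⟨p, Multiset.mem_cons_self p s, i0, j0, m', h4, by linarith⟩

/-- **Two letters of the same class cancel after exchanges.** -/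
theorem pair_step (Z : ZSit S κ a) (hR : Eqv a R) (hB : RulesZ S a R B) {C : Type} (q : I → C)
    (hq : ∀ A ∈ S, ∀ i j, A i j ≠ 0 → q i = q j) :
    ∀ (n : ℕ) (s : Multiset (Tri I)), Multiset.card s = n →
      (∀ p ∈ s, HomRZ S κ a R p.1 p.2.1 p.2.2) → ∀ (l1 l2 : I) (v : Multiset I),
      B (l1 ::ₘ l2 ::ₘ v) →
      (∀ T, Zt S a T → T l1 + T l2 + (v.map T).sum = 0) →
      (∀ T, Zt S a T → T l1 + T l2 = (s.map fun p => p.2.1 T).sum) →
      ∃ v', B v' ∧ (∀ T, Zt S a T → (v'.map T).sum = 0) ∧ v'.map q = v.map q := by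
  intro n
  induction n with
  | zero =>
    intro s hs _ l1 l2 v hb h0 hT
    have h1 : ∀ T, Zt S a T → T l1 + T l2 = 0 := by
      intro T hT'
      rw [hT T hT', Multiset.card_eq_zero.1 hs, Multiset.map_zero, Multiset.sum_zero]
    refine ⟨v, hB.cancel l1 l2 v h1 hb, fun T hT' => ?_, rfl⟩
    have h2 := h0 T hT'
    rwa [h1 T hT', zero_add] at h2
  | succ n ih =>
    intro s hs hp l1 l2 v hb h0 hT
    by_cases h1 : ∀ T, Zt S a T → T l1 + T l2 = 0
    · refine ⟨v, hB.cancel l1 l2 v h1 hb, fun T hT' => ?_, rfl⟩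
      have h2 := h0 T hT'
      rwa [h1 T hT', zero_add] at h2
    · push Not at h1
      obtain ⟨T0, hT0, hne⟩ := h1
      obtain ⟨m, hm1, hm2, hm3⟩ := exists_dual_sumR Z hR s hp
      have h1 : ∑ l, (m l : ℂ) * (m l : ℂ) = (m l1 : ℂ) + (m l2 : ℂ) := by
        rw [hT _ hm1]
        exact hm2 _ hm1
      have h3 : ∑ l, m l * m l = m l1 + m l2 := by
        have h4 := congrArg Complex.re h1
        have h5 : ∑ l, (m l : ℂ) * (m l : ℂ) = ((∑ l, m l * m l : ℝ) : ℂ) := by
          push_cast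
          rfl
        rw [h5, Complex.ofReal_re, Complex.add_re, Complex.ofReal_re, Complex.ofReal_re] at h4
        exact h4
      have h4 : 0 < ∑ l, m l * m l := by
        obtain ⟨l, hl⟩ : ∃ l, m l ≠ 0 := by
          by_contra hc
          push Not at hc
          apply hne
          rw [hT T0 hT0, ← hm2 T0 hT0]
          refine Finset.sum_eq_zero fun l _ => ?_
          rw [hc l, Complex.ofReal_zero, mul_zero]
        have h8 : 0 < m l * m l := mul_self_pos.2 hl
        have h9 : m l * m l ≤ ∑ l, m l * m l :=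
          Finset.single_le_sum (f := fun l => m l * m l)
            (fun _ _ => mul_self_nonneg _) (Finset.mem_univ l)
        linarith
      rw [h3] at h4
      obtain ⟨p, hps, i0, j0, m', hm', h5⟩ := hm3 l1 l2 h4
      -- a letter of negative weight
      have h7 := h0 _ hm'.1
      have h8 : (v.map fun i => m' i).sum < 0 := by
        have h9 := congrArg Complex.re h7
        rw [Complex.add_re, Complex.add_re, Red.re_sum, Complex.zero_re] at h9
        simp only [Complex.ofReal_re] at h9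
        linarith
      obtain ⟨r, hr, h9⟩ := Red.exists_neg v _ h8
      obtain ⟨v1, rfl⟩ := Multiset.exists_cons_of_mem hr
      obtain ⟨l', hm''⟩ := hm'.2.2.2 r h9
      obtain ⟨s1, rfl⟩ := Multiset.exists_cons_of_mem hps
      have hs1 : Multiset.card s1 = n := by
        rw [Multiset.card_cons] at hs
        omega
      have hp1 : ∀ p' ∈ s1, HomRZ S κ a R p'.1 p'.2.1 p'.2.2 := fun p' hp' =>
        hp p' (Multiset.mem_cons_of_mem hp')
      have hqm : q l' = q r := by
        obtain ⟨y, hy, hy'⟩ := hm''.ent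
        exact hq y hy l' r hy'
      by_cases h10 : 0 < m' l1
      · obtain ⟨l, hl⟩ := hm'.2.2.1 l1 h10
        have hrel : R l1 l l' r := hR.trans _ _ _ _ _ _ (hR.symm _ _ _ _ hl.rel) hm''.rel
        have hb1 : B (l1 ::ₘ r ::ₘ l2 ::ₘ v1) := by
          rw [Multiset.cons_swap r l2]
          exact hb
        have hb2 := hB.exch l1 l l' r _ hrel hb1
        have hb3 : B (l ::ₘ l2 ::ₘ l' ::ₘ v1) := by
          rw [Multiset.cons_swap l2 l']
          exact hb2
        obtain ⟨v', hv1, hv2, hv3⟩ := ih s1 hs1 hp1 l l2 (l' ::ₘ v1) hb3 (by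
          intro T hT'
          have e1 := h0 T hT'
          have e2 := hl.wt T hT'
          have e3 := hm''.wt T hT'
          rw [Multiset.map_cons, Multiset.sum_cons] at e1 ⊢
          linear_combination e1 - e2 + e3) (by
          intro T hT'
          have e1 := hT T hT'
          have e2 := hl.wt T hT'
          rw [Multiset.map_cons, Multiset.sum_cons] at e1
          linear_combination e1 - e2)
        exact ⟨v', hv1, hv2, by rw [hv3, Multiset.map_cons, Multiset.map_cons, hqm]⟩
      · obtain ⟨l, hl⟩ := hm'.2.2.1 l2 (by linarith)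
        have hrel : R l2 l l' r := hR.trans _ _ _ _ _ _ (hR.symm _ _ _ _ hl.rel) hm''.rel
        have hb1 : B (l2 ::ₘ r ::ₘ l1 ::ₘ v1) := by
          rw [Multiset.cons_swap r l1, Multiset.cons_swap l2 l1]
          exact hb
        have hb2 := hB.exch l2 l l' r _ hrel hb1
        have hb3 : B (l1 ::ₘ l ::ₘ l' ::ₘ v1) := by
          rw [Multiset.cons_swap l l', Multiset.cons_swap l1 l', Multiset.cons_swap l1 l,
            Multiset.cons_swap l' l]
          exact hb2
        obtain ⟨v', hv1, hv2, hv3⟩ := ih s1 hs1 hp1 l1 l (l' ::ₘ v1) hb3 (by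
          intro T hT'
          have e1 := h0 T hT'
          have e2 := hl.wt T hT'
          have e3 := hm''.wt T hT'
          rw [Multiset.map_cons, Multiset.sum_cons] at e1 ⊢
          linear_combination e1 - e2 + e3) (by
          intro T hT'
          have e1 := hT T hT'
          have e2 := hl.wt T hT'
          rw [Multiset.map_cons, Multiset.sum_cons] at e1
          linear_combination e1 - e2)
        exact ⟨v', hv1, hv2, by rw [hv3, Multiset.map_cons, Multiset.map_cons, hqm]⟩

/-- **The reduction.** A word of total weight zero can be reduced to a word of total weight zero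
with at most one letter in each class, with the same parities. -/
theorem red (Z : ZSit S κ a) (hR : Eqv a R) (hB : RulesZ S a R B) {C : Type} [DecidableEq C]
    (q : I → C) (hq : ∀ A ∈ S, ∀ i j, A i j ≠ 0 → q i = q j)
    (hc : ∀ i j, q i = q j → ∃ s : Multiset (Tri I), (∀ p ∈ s, HomRZ S κ a R p.1 p.2.1 p.2.2) ∧
      ∀ T, Zt S a T → T i + T j = (s.map fun p => p.2.1 T).sum) :
    ∀ (n : ℕ) (v : Multiset I), Multiset.card v ≤ n → B v →
      (∀ T, Zt S a T → (v.map T).sum = 0) →
      ∃ v', B v' ∧ (∀ T, Zt S a T → (v'.map T).sum = 0) ∧ (v'.map q).Nodup ∧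
        ∀ c, (v'.map q).count c % 2 = (v.map q).count c % 2 := by
  intro n
  induction n with
  | zero =>
    intro v hv hb h0
    have h1 : v = 0 := Multiset.card_eq_zero.1 (by omega)
    refine ⟨v, hb, h0, ?_, fun _ => rfl⟩
    rw [h1, Multiset.map_zero]
    exact Multiset.nodup_zero
  | succ n ih =>
    intro v hv hb h0
    by_cases hn : (v.map q).Nodup
    · exact ⟨v, hb, h0, hn, fun _ => rfl⟩
    · rw [Multiset.nodup_iff_ne_cons_cons] at hn
      push Not at hn
      obtain ⟨b, t, hat⟩ := hn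
      obtain ⟨l1, hl1, hql1, h1⟩ := (Multiset.map_eq_cons _ _ _ _).2 hat
      obtain ⟨l2, hl2, hql2, h2⟩ := (Multiset.map_eq_cons _ _ _ _).2 h1
      obtain ⟨v1, hv1⟩ := Multiset.exists_cons_of_mem hl1
      have e1 : v.erase l1 = v1 := by rw [hv1, Multiset.erase_cons_head]
      rw [e1] at hl2 h2
      obtain ⟨v2, hv2⟩ := Multiset.exists_cons_of_mem hl2
      have e2 : v1.erase l2 = v2 := by rw [hv2, Multiset.erase_cons_head]
      rw [e2] at h2
      have hv : v = l1 ::ₘ l2 ::ₘ v2 := by rw [hv1, hv2]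
      obtain ⟨s, hs, hsT⟩ := hc l1 l2 (hql1.trans hql2.symm)
      obtain ⟨v', hb', h0', hv'⟩ := pair_step Z hR hB q hq _ s rfl hs l1 l2 v2 (hv ▸ hb) (by
        intro T hT
        have h3 := h0 T hT
        rw [hv, Multiset.map_cons, Multiset.map_cons, Multiset.sum_cons, Multiset.sum_cons] at h3
        rw [← h3]
        ring) hsT
      have hcard : Multiset.card v' = Multiset.card v2 := by
        have h3 := congrArg Multiset.card hv'
        rwa [Multiset.card_map, Multiset.card_map] at h3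
      obtain ⟨w, hw1, hw0, hw2, hw3⟩ := ih v' (by
        rw [hcard]
        have h3 := congrArg Multiset.card hv
        rw [Multiset.card_cons, Multiset.card_cons] at h3
        omega) hb' h0'
      refine ⟨w, hw1, hw0, hw2, fun c => ?_⟩
      rw [hw3 c, hv', hv, Multiset.map_cons, Multiset.map_cons, hql1, hql2, Multiset.count_cons,
        Multiset.count_cons]
      split_ifs <;> omega

end Pool.Agent.Lib.MP_361a6f_ag.FL.E.EB.RedZ
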