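import Pool.Agent.Lib.MP_361a6f_ag.FL.E.BR.B5
import Pool.Agent.Lib.MP_361a6f_ag.FL.E.BR.IsoP
import Pool.Agent.Lib.MP_361a6f_ag.FL.E.BR.Top
import Pool.Agent.Lib.MP_361a6f_ag.FL.E5.R4
import Pool.Agent.Lib.MP_361a6f_ag.FL.EB.Defs
import Pool.Agent.Lib.MP_361a6f_ag.FL.EB.RedZ

/-!
# Theorem EB, row R4z: the classes, and the reduction of words, for the torus `zen`

The frame and the classes are those of row R5p (`FL/E/BR/B5p.lean`), with `κ = 1`; the reduction is
`FL/EB/RedZ.lean`. The entries of `N` are between letters of weight zero, which are in one class: so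
`N` kills all other classes, and there are at most five classes.
-/

set_option autoImplicit false
set_option linter.unusedSectionVars false

open Matrix Module

namespace Pool.Agent.Lib.MP_361a6f_ag.FL.E.EB.R4z

open P5e BR BR.B5 LemR
open R4 (Gn Q gn_iff gn_add gn_can gn_exch gn_four q_refl q_symm q_trans restr_mem pr pr_word
  pr_card pr_congr)

section mv

variable {I : Type} [Fintype I] [DecidableEq I] {τ : I → I} {a : I → ℂ}
  {G : ℤˣ → List I → Prop} {S : Submodule ℂ (Matrix I I ℂ)}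

/-- a homogeneous element may be replaced by one with equivalent moves -/
theorem refine_homZ (C : Calc τ a G) (hττ : ∀ i, τ (τ i) = i) (hτ : ∀ i, a (τ i) = -a i)
    (hmv : ∀ A ∈ S, ∀ i0 j0, mvR τ G i0 j0 A ∈ S) {U : Matrix I I ℂ} {r : I → I}
    (har : ∀ i j, U i j ≠ 0 → a i = a (r j)) {κ a' : I → ℂ} {x : Matrix I I ℂ}
    {α : (I → ℂ) → ℂ} {c : ℂ} (hx : HomZ (conjS U S) κ a' x α c) :
    ∃ y, RedZ.HomRZ (conjS U S) κ a' (Q τ G r) y α c := by
  classical
  obtain ⟨i0, j0, h0⟩ : ∃ i j, x i j ≠ 0 := by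
    by_contra hc
    push Not at hc
    exact hx.ne (by ext i j; simpa using hc i j)
  have key : ∀ i j, (Matrix.of fun i j => if Q τ G r i0 j0 i j then x i j else 0) i j ≠ 0 →
      Q τ G r i0 j0 i j ∧ x i j ≠ 0 := by
    intro i j h
    rw [Matrix.of_apply] at h
    by_cases h1 : Q τ G r i0 j0 i j
    · rw [if_pos h1] at h
      exact ⟨h1, h⟩
    · rw [if_neg h1] at h
      exact absurd rfl h
  refine ⟨Matrix.of fun i j => if Q τ G r i0 j0 i j then x i j else 0,
    ⟨restr_mem C hτ hmv har hx.mem i0 j0, ?_, fun i j h => hx.wt i j (key i j h).2,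
      fun i j h => hx.kk i j (key i j h).2⟩, fun l m m' n h h' => ?_⟩
  · intro h
    have h1 := congrFun (congrFun h i0) j0
    rw [Matrix.of_apply, if_pos (q_refl C r i0 j0)] at h1
    exact h0 h1
  · exact q_trans C r (q_symm C hττ r (key _ _ h).1) (key _ _ h').1

theorem refine_msZ (C : Calc τ a G) (hττ : ∀ i, τ (τ i) = i) (hτ : ∀ i, a (τ i) = -a i)
    (hmv : ∀ A ∈ S, ∀ i0 j0, mvR τ G i0 j0 A ∈ S) {U : Matrix I I ℂ} {r : I → I}
    (har : ∀ i j, U i j ≠ 0 → a i = a (r j)) {κ a' : I → ℂ} (s : Multiset (Tri I))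
    (hs : ∀ p ∈ s, HomZ (conjS U S) κ a' p.1 p.2.1 p.2.2) :
    ∃ s' : Multiset (Tri I),
      (∀ p ∈ s', RedZ.HomRZ (conjS U S) κ a' (Q τ G r) p.1 p.2.1 p.2.2) ∧
      ∀ T : I → ℂ, (s'.map fun p => p.2.1 T).sum = (s.map fun p => p.2.1 T).sum := by
  induction s using Multiset.induction_on with
  | empty => exact ⟨0, by simp, fun T => rfl⟩
  | cons p s ih =>
    obtain ⟨s', h1, h2⟩ := ih fun q hq => hs q (Multiset.mem_cons_of_mem hq)
    obtain ⟨y, hy⟩ := refine_homZ C hττ hτ hmv har (hs p (Multiset.mem_cons_self p s))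
    refine ⟨(y, p.2.1, p.2.2) ::ₘ s', ?_, fun T => ?_⟩
    · intro q hq
      rcases Multiset.mem_cons.1 hq with rfl | hq
      · exact hy
      · exact h1 q hq
    · rw [Multiset.map_cons, Multiset.map_cons, Multiset.sum_cons, Multiset.sum_cons, h2 T]

end mv

/-- the number of the classes with an odd number of letters is even for words of even length -/
theorem pr_even {I B : Type} [Fintype B] [DecidableEq B] (q : I → B) {L : ℕ} (w : Fin L → I)
    (hL : Even L) : Even (pr q (Finset.univ.val.map w)).card := by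
  rw [pr_word]
  have h1 : L = ∑ b : B, (Finset.univ.filter fun j => q (w j) = b).card := by
    rw [← Finset.card_eq_sum_card_fiberwise (f := fun j => q (w j)) (s := Finset.univ)
      (t := Finset.univ) (fun _ _ => Finset.mem_univ _), Finset.card_univ, Fintype.card_fin]
  have h2 : Even (∑ b : B, (Finset.univ.filter fun j => q (w j) = b).card) := by
    rw [← h1]
    exact hL
  rw [Finset.even_sum_iff_even_card_odd] at h2
  exact h2

/-- Row R4z from rows R1 and R4a. -/
theorem core (r1 : R1Statement) (r4 : R4aStatement) : R4zStatement := by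
  intro I _ _ S E P hlie hstar hE hSP hP a hreal ha k hak τ G hττ hτ C hmv hiso N hN
    hNN haN hsix
  classical
  have a1 : Alg1 := alg1
  have hS : LieStar S := ⟨hlie, hstar⟩
  have hAH : (diagonal a)ᴴ = diagonal a := by
    rw [diagonal_conjTranspose]
    congr 1
    funext i
    exact hreal i
  have hz := r4 S E P hS hE hSP hP (diagonal a) ha hAH hiso N hN hNN haN
  obtain ⟨U, hU1, hU2, hd⟩ := joint_diag {A | A ∈ zen S (diagonal a) ∧ Aᴴ = A}
    (fun A hA => hA.2) (fun A hA B hB => zen_comm hA.1 hB.1)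
  -- all of `zen` is diagonalised
  have hdt : ∀ A ∈ zen S (diagonal a), ∃ d : I → ℂ, A * U = U * diagonal d := by
    intro A hA
    have hA' := zen_star hS hAH hA
    have hneg : -Aᴴ ∈ zen S (diagonal a) := by
      have h1 := zen_smul (-1) hA'
      rwa [neg_smul, one_smul] at h1
    obtain ⟨d1, hd1⟩ := hd (A + Aᴴ) ⟨zen_add hA hA', by
      rw [conjTranspose_add, conjTranspose_conjTranspose, add_comm]⟩
    obtain ⟨d2, hd2⟩ := hd (Complex.I • (A + -Aᴴ))
      ⟨zen_smul _ (zen_add hA hneg), by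
        rw [conjTranspose_smul, conjTranspose_add, conjTranspose_neg,
          conjTranspose_conjTranspose, Complex.star_def, Complex.conj_I, neg_smul, ← smul_neg,
          neg_add, neg_neg, add_comm]⟩
    refine ⟨fun i => (1 / 2 : ℂ) * (d1 i + (-Complex.I) * d2 i), ?_⟩
    have h3 : A = (1 / 2 : ℂ) • ((A + Aᴴ) + (-Complex.I) • (Complex.I • (A + -Aᴴ))) := by
      rw [smul_smul, neg_mul, Complex.I_mul_I, neg_neg, one_smul, ← sub_eq_add_neg,
        add_add_sub_cancel, ← two_smul ℂ A, smul_smul]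
      norm_num
    rw [h3, smul_mul_assoc, add_mul, smul_mul_assoc (-Complex.I), hd1, hd2]
    ext i j
    simp only [Matrix.smul_apply, Matrix.add_apply, Matrix.mul_diagonal, smul_eq_mul]
    ring
  obtain ⟨a', ha'⟩ := hdt _ (zen_self ha)
  have hcol : ∀ j, ∃ i, U i j ≠ 0 := by
    intro j
    by_contra hc
    push Not at hc
    have h1 := congrFun (congrFun hU1 j) j
    rw [Matrix.mul_apply, Matrix.one_apply_eq] at h1
    simp [hc] at h1
  choose r hr using hcol
  have hent : ∀ i j, U i j ≠ 0 → a i = a' j := by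
    intro i j hij
    have h1 := congrFun (congrFun ha' i) j
    rw [Matrix.diagonal_mul, Matrix.mul_diagonal, mul_comm] at h1
    exact mul_left_cancel₀ hij h1
  have hae : ∀ j, a (r j) = a' j := fun j => hent _ _ (hr j)
  have har : ∀ i j, U i j ≠ 0 → a i = a (r j) := fun i j hij => (hent i j hij).trans (hae j).symm
  let κ : I → ℂ := fun _ => 1
  let h' : Submodule ℂ (Matrix I I ℂ) := conjS U S
  have hm : ∀ X, X ∈ h' ↔ U * X * Uᴴ ∈ S := fun X => Iff.rfl
  have eback : ∀ A : Matrix I I ℂ, U * (Uᴴ * A * U) * Uᴴ = A := by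
    intro A
    calc U * (Uᴴ * A * U) * Uᴴ = (U * Uᴴ) * A * (U * Uᴴ) := by noncomm_ring
      _ = A := by rw [hU2, Matrix.one_mul, Matrix.mul_one]
  have efor : ∀ X : Matrix I I ℂ, Uᴴ * (U * X * Uᴴ) * U = X := by
    intro X
    calc Uᴴ * (U * X * Uᴴ) * U = (Uᴴ * U) * X * (Uᴴ * U) := by noncomm_ring
      _ = X := by rw [hU1, Matrix.one_mul, Matrix.mul_one]
  have hmS : ∀ A ∈ S, Uᴴ * A * U ∈ h' := by
    intro A hA
    rw [hm, eback]
    exact hA
  have emul : ∀ A B, U * (A * B) * Uᴴ = (U * A * Uᴴ) * (U * B * Uᴴ) := by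
    intro A B
    calc U * (A * B) * Uᴴ = U * A * 1 * B * Uᴴ := by rw [Matrix.mul_one]; noncomm_ring
      _ = (U * A * Uᴴ) * (U * B * Uᴴ) := by rw [← hU1]; noncomm_ring
  have ea : U * diagonal a' * Uᴴ = diagonal a := by
    rw [← ha', Matrix.mul_assoc, hU2, Matrix.mul_one]
  have einj : ∀ X Y : Matrix I I ℂ, U * X * Uᴴ = U * Y * Uᴴ → X = Y := by
    intro X Y h
    rw [← efor X, h, efor]
  -- the centre in the new basis
  have hzen : ∀ X, X ∈ zen h' (diagonal a') → U * X * Uᴴ ∈ zen S (diagonal a) := by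
    intro X hX
    refine ⟨(hm X).1 hX.1, ?_, fun A hA hAA => ?_⟩
    · rw [← ea, ← emul, ← emul, hX.2.1]
    · obtain ⟨A', hA', hAm⟩ : ∃ A' ∈ h', U * A' * Uᴴ = A := ⟨_, hmS A hA, eback A⟩
      have h1 : A' * diagonal a' = diagonal a' * A' := by
        apply einj
        rw [emul, emul, hAm, ea, hAA]
      have h3 := congrArg (fun Y => U * Y * Uᴴ) (hX.2.2 A' hA' h1)
      simp only [emul, hAm] at h3
      exact h3
  have hls : LieStar h' := by
    refine ⟨?_, ?_⟩
    · intro A hA B hB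
      rw [hm] at hA hB ⊢
      rw [mul_sub, sub_mul, emul, emul]
      exact hlie _ hA _ hB
    · intro A hA
      rw [hm] at hA ⊢
      have h1 := hstar _ hA
      rw [conjTranspose_mul, conjTranspose_mul, conjTranspose_conjTranspose,
        ← Matrix.mul_assoc] at h1
      exact h1
  have hsit : ZSit h' κ a' := by
    refine ⟨hls, fun i => one_ne_zero, ?_, ?_, ?_, fun i j _ => rfl, ?_⟩
    · intro A hA
      have e : diagonal κ * A * diagonal (fun i => (κ i)⁻¹) = A := by
        show diagonal (fun _ => (1 : ℂ)) * A * diagonal (fun _ => (1 : ℂ)⁻¹) = A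
        rw [inv_one, Matrix.diagonal_one, Matrix.one_mul, Matrix.mul_one]
      rw [e]
      exact hA
    · rw [hm, ea]
      exact ha
    · intro i
      rw [← hae]
      exact hreal _
    · intro y hy
      obtain ⟨d, hdy⟩ := hdt _ (hzen y hy)
      refine ⟨d, ?_⟩
      have h1 : U * y * Uᴴ * U = U * y := by
        rw [Matrix.mul_assoc, hU1, Matrix.mul_one]
      rw [h1] at hdy
      calc y = Uᴴ * (U * y) := by rw [← Matrix.mul_assoc, hU1, Matrix.one_mul]
        _ = diagonal d := by rw [hdy, ← Matrix.mul_assoc, hU1, Matrix.one_mul]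
  obtain ⟨hrefl, hstep, hprod⟩ := r1 h' κ a' hsit
  have hza : diagonal a' ∈ zen h' (diagonal a') := zen_self (by rw [hm, ea]; exact ha)
  -- the form in the new basis
  set P' : Matrix I I ℂ := Uᵀ * P * U with hP'
  have hUt : Uᵀ * (Uᴴ)ᵀ = 1 := by
    rw [← Matrix.transpose_mul, hU1, Matrix.transpose_one]
  have hTP : ∀ T, diagonal T ∈ h' → ∀ i j, P' i j ≠ 0 → T i + T j = 0 := by
    intro T hT i j hij
    have h1 := hSP _ ((hm _).1 hT)
    have h2 : (diagonal T)ᵀ * P' + P' * diagonal T = 0 := by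
      have h3 := congrArg (fun X => Uᵀ * X * U) h1
      simp only [mul_add, add_mul, Matrix.mul_zero, Matrix.zero_mul, Matrix.transpose_mul] at h3
      have e1 : Uᵀ * ((Uᴴ)ᵀ * ((diagonal T)ᵀ * Uᵀ) * P) * U = (diagonal T)ᵀ * P' := by
        calc Uᵀ * ((Uᴴ)ᵀ * ((diagonal T)ᵀ * Uᵀ) * P) * U
            = (Uᵀ * (Uᴴ)ᵀ) * ((diagonal T)ᵀ * (Uᵀ * P * U)) := by simp only [Matrix.mul_assoc]
          _ = (diagonal T)ᵀ * P' := by rw [hUt, Matrix.one_mul]
      have e2 : Uᵀ * (P * (U * diagonal T * Uᴴ)) * U = P' * diagonal T := by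
        calc Uᵀ * (P * (U * diagonal T * Uᴴ)) * U
            = (Uᵀ * P * U) * (diagonal T * (Uᴴ * U)) := by simp only [Matrix.mul_assoc]
          _ = P' * diagonal T := by rw [hU1, Matrix.mul_one]
      rw [e1, e2] at h3
      exact h3
    have h3 := congrFun (congrFun h2 i) j
    rw [Matrix.diagonal_transpose, Matrix.add_apply, Matrix.diagonal_mul, Matrix.mul_diagonal,
      Matrix.zero_apply] at h3
    have h4 : (T i + T j) * P' i j = 0 := by linear_combination h3
    exact (mul_eq_zero.1 h4).resolve_right hij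
  -- the entries of the endomorphisms
  have hsame : ∀ e ∈ E, ∀ i j, (Uᴴ * e * U) i j ≠ 0 →
      ∀ T, diagonal T ∈ h' → T i = T j := by
    intro e he i j hij T hT
    have h1 := hE e he _ ((hm _).1 hT)
    have h2 : (Uᴴ * e * U) * diagonal T = diagonal T * (Uᴴ * e * U) := by
      calc (Uᴴ * e * U) * diagonal T
          = Uᴴ * (e * (U * diagonal T * Uᴴ)) * U := by
            calc (Uᴴ * e * U) * diagonal T = (Uᴴ * e * U) * diagonal T * (Uᴴ * U) := by
                  rw [hU1, Matrix.mul_one]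
              _ = _ := by simp only [Matrix.mul_assoc]
        _ = Uᴴ * ((U * diagonal T * Uᴴ) * e) * U := by rw [h1]
        _ = diagonal T * (Uᴴ * e * U) := by
            calc Uᴴ * ((U * diagonal T * Uᴴ) * e) * U
                = (Uᴴ * U) * (diagonal T * (Uᴴ * e * U)) := by simp only [Matrix.mul_assoc]
              _ = _ := by rw [hU1, Matrix.one_mul]
    have h3 := congrFun (congrFun h2 i) j
    rw [Matrix.diagonal_mul, Matrix.mul_diagonal, mul_comm] at h3
    exact (mul_right_cancel₀ hij h3).symm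
  have hzt : ∀ T, ShZ.Zt h' a' T → diagonal T ∈ h' := fun T hT => hT.1
  -- the classes
  let sd : Setoid I :=
    { r := fun i j => ∃ z : ℂˣ, ShZ.QZ h' κ a' (fun T => T i - T j) z
      iseqv :=
        { refl := fun i => ⟨1, ShZ.QZ.zero fun T _ => sub_self _⟩
          symm := by
            rintro i j ⟨z, hz⟩
            exact ⟨z⁻¹, (hz.neg hsit).congr (fun T _ => by ring) rfl⟩
          trans := by
            rintro i j l ⟨z, hz⟩ ⟨z', hz'⟩
            exact ⟨z * z', (hz.add hz').congr (fun T _ => by ring) rfl⟩ } }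
  let B : Type := Quotient sd
  let q : I → B := Quotient.mk sd
  have hq0 : ∀ i j, q i = q j → ∃ z : ℂˣ, ShZ.QZ h' κ a' (fun T => T i - T j) z :=
    fun i j h => Quotient.exact h
  let _ : Fintype B := Fintype.ofFinite _
  have hedge : ∀ A ∈ S, ∀ i j, (Uᴴ * A * U) i j ≠ 0 → q i = q j := by
    intro A hA i j hij
    exact Quotient.sound (ShZ.QZ.of_conn hsit (hstep i j j _ (hmS A hA) hij (hrefl j)))
  have hedgeE : ∀ e ∈ E, ∀ i j, (Uᴴ * e * U) i j ≠ 0 → q i = q j := by
    intro e he i j hij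
    apply Quotient.sound
    exact ⟨1, ShZ.QZ.zero fun T hT => by rw [hsame e he i j hij T (hzt T hT), sub_self]⟩
  -- the entries of `N`
  have hrow : ∀ M : Matrix I I ℂ, (∀ y ∈ zen S (diagonal a), y * M = 0) →
      ∀ b c, (Uᴴ * M * U) b c ≠ 0 → ∀ T, diagonal T ∈ zen h' (diagonal a') → T b = 0 := by
    intro M hM b c hbc T hT
    have h1 := hM _ (hzen _ hT)
    have h2 : diagonal T * (Uᴴ * M * U) = 0 := by
      calc diagonal T * (Uᴴ * M * U)
          = (Uᴴ * U) * diagonal T * (Uᴴ * M * U) := by rw [hU1, Matrix.one_mul]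
        _ = Uᴴ * ((U * diagonal T * Uᴴ) * M) * U := by simp only [Matrix.mul_assoc]
        _ = 0 := by rw [h1, Matrix.mul_zero, Matrix.zero_mul]
    have h3 := congrFun (congrFun h2 b) c
    rw [Matrix.diagonal_mul, Matrix.zero_apply] at h3
    exact (mul_eq_zero.1 h3).resolve_right hbc
  have hcls : ∀ i j i' j', (Uᴴ * N * U) i j ≠ 0 → (Uᴴ * N * U) i' j' ≠ 0 → q j = q j' := by
    intro i j i' j' h1 h2
    have e1 : q i = q i' := by
      apply Quotient.sound
      refine ⟨1, ShZ.QZ.zero fun T hT => ?_⟩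
      rw [hrow N (fun y hy => (hz y hy).1) i j h1 T hT,
        hrow N (fun y hy => (hz y hy).1) i' j' h2 T hT, sub_self]
    exact ((hedge N hN i j h1).symm.trans e1).trans (hedge N hN i' j' h2)
  -- coordinate subspaces of unions of classes are stable
  have hstS : ∀ J : Set I, (∀ i j, q i = q j → j ∈ J → i ∈ J) →
      (∀ A ∈ S, ∀ v ∈ H5.co U J, A.mulVec v ∈ H5.co U J) ∧
      (∀ e ∈ E, ∀ v ∈ H5.co U J, e.mulVec v ∈ H5.co U J) := by
    intro J hJ
    refine ⟨fun A hA => H5.co_stable hU2 A fun i hi j hj => ?_,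
      fun e he => H5.co_stable hU2 e fun i hi j hj => ?_⟩
    · by_contra h0
      exact hi (hJ i j (hedge A hA i j h0) hj)
    · by_contra h0
      exact hi (hJ i j (hedgeE e he i j h0) hj)
  have hqadd : ∀ i j, q i = q j → ∃ z : ℂˣ, ShZ.QZ h' κ a' (fun T => T i + T j) z := by
    intro i j hij
    have h1 : ¬ ∀ x ∈ {x | q x = q i}, ∀ y ∈ {y | q y = q i}, (Uᵀ * P * U) x y = 0 := by
      intro h2
      obtain ⟨h3, h4⟩ := hstS {x | q x = q i} fun x y hxy hy => hxy.trans hy
      exact H5.co_ne_bot hU1 (J := {x | q x = q i}) (j := i) rfl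
        (hiso _ h3 h4 (H5.co_iso hU2 h2))
    push Not at h1
    obtain ⟨x, hx, y, hy, hxy⟩ := h1
    obtain ⟨z1, hz1⟩ := hq0 i x (Eq.symm hx)
    obtain ⟨z2, hz2⟩ := hq0 j y (hij.symm.trans (Eq.symm hy))
    refine ⟨z1 * z2, (hz1.add hz2).congr (fun T hT => ?_) rfl⟩
    have h5 := hTP T (hzt T hT) x y hxy
    linear_combination h5
  -- `N` kills the classes without entries of `N`
  have hkill : ∀ J : Set I, (∀ i, ∀ j ∈ J, (Uᴴ * N * U) i j = 0) →
      ∀ v ∈ H5.co U J, N.mulVec v = 0 := by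
    intro J hJ v hv
    have e : Uᴴ *ᵥ (N *ᵥ v) = 0 := by
      have e1 : Uᴴ *ᵥ (N *ᵥ v) = (Uᴴ * N * U) *ᵥ (Uᴴ *ᵥ v) := by
        rw [Matrix.mulVec_mulVec, Matrix.mulVec_mulVec]
        congr 1
        calc Uᴴ * N = Uᴴ * N * (U * Uᴴ) := by rw [hU2, Matrix.mul_one]
          _ = Uᴴ * N * U * Uᴴ := by simp only [Matrix.mul_assoc]
      rw [e1]
      funext i
      rw [Matrix.mulVec, dotProduct, Pi.zero_apply]
      refine Finset.sum_eq_zero fun j _ => ?_
      by_cases hj : j ∈ J
      · rw [hJ i j hj, zero_mul]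
      · rw [hv j hj, mul_zero]
    calc N *ᵥ v = (U * Uᴴ) *ᵥ (N *ᵥ v) := by rw [hU2, Matrix.one_mulVec]
      _ = 0 := by rw [← Matrix.mulVec_mulVec, e, Matrix.mulVec_zero]
  -- at most five classes
  have hB : Fintype.card B ≤ 5 := by
    by_contra hc
    have h1 : Fintype.card (Fin 6) ≤ Fintype.card B := by
      rw [Fintype.card_fin]
      omega
    -- a surjection that sends the class of the entries of `N` to `0`
    obtain ⟨F, hsur, hF⟩ : ∃ F : B → Fin 6, Function.Surjective F ∧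
        ∀ i j, (Uᴴ * N * U) i j ≠ 0 → F (q j) = 0 := by
      obtain ⟨e⟩ := Function.Embedding.nonempty_of_card_le h1
      have hs := Function.invFun_surjective e.injective
      by_cases hN0 : ∃ i j, (Uᴴ * N * U) i j ≠ 0
      · obtain ⟨i0, j0, h0⟩ := hN0
        refine ⟨fun b => Equiv.swap (Function.invFun e (q j0)) 0 (Function.invFun e b),
          (Equiv.surjective _).comp hs, fun i j hij => ?_⟩
        show Equiv.swap (Function.invFun e (q j0)) 0 (Function.invFun e (q j)) = 0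
        rw [hcls i j i0 j0 hij h0, Equiv.swap_apply_left]
      · push Not at hN0
        exact ⟨Function.invFun e, hs, fun i j hij => absurd (hN0 i j) hij⟩
    refine hsix (fun x => H5.co U {i | F (q i) = x}) (fun x => ?_) (fun x => ?_)
      (H5.co_indep hU2 fun i => F (q i)) (H5.co_top hU1 hU2 fun i => F (q i)) (fun x hx => ?_)
    · refine hstS _ fun i j hij hj => ?_
      show F (q i) = x
      rw [hij]
      exact hj
    · obtain ⟨b, hb⟩ := hsur x
      obtain ⟨i, hi⟩ := Quotient.exists_rep b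
      refine H5.co_ne_bot hU1 (j := i) ?_
      show F (q i) = x
      rw [← hb]
      exact congrArg _ hi
    · refine hkill _ fun i j hj => ?_
      by_contra h0
      exact hx ((Eq.symm hj).trans (hF i j h0))
  -- the reduction
  have heqv : RedZ.Eqv a' (Q τ G r) := by
    refine ⟨fun i j k l h => q_symm C hττ r h, fun i j k l m n h h1 => q_trans C r h h1, ?_⟩
    intro x y i j i' j' hi hj h
    refine C.blk 1 _ _ ?_ h
    simp only [List.map_cons, List.map_nil, hτ, hae, hi, hj]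
  have rules : ∀ e : ℤˣ, RedZ.RulesZ h' a' (Q τ G r) (Gn G r e) := fun e =>
    ⟨fun i j v hT h => gn_can C hτ r (by rw [hae, hae]; exact hT a' hza) h,
      fun l m m' n v hQ h => gn_exch C r hQ h⟩
  have hqS : ∀ A ∈ h', ∀ i j, A i j ≠ 0 → q i = q j := fun A hA i j hij =>
    Quotient.sound (ShZ.QZ.of_conn hsit (hstep i j j _ hA hij (hrefl j)))
  have hsum : ∀ i j, q i = q j → ∃ s : Multiset (Tri I),
      (∀ p ∈ s, RedZ.HomRZ h' κ a' (Q τ G r) p.1 p.2.1 p.2.2) ∧
      ∀ T, ShZ.Zt h' a' T → T i + T j = (s.map fun p => p.2.1 T).sum := by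
    intro i j hij
    obtain ⟨z, s, h3, h4, -⟩ := hqadd i j hij
    obtain ⟨s', h5, h6⟩ := refine_msZ C hττ hτ hmv har s h3
    exact ⟨s', h5, fun T hT => by rw [h6 T, ← h4 T hT]⟩
  have main : ∀ (e : ℤˣ) (v : Multiset I), Gn G r e v →
      (∀ T, ShZ.Zt h' a' T → (v.map T).sum = 0) → (pr q v).card ≤ 4 → e = 1 := by
    intro e v hv h0 hc
    obtain ⟨v', h2, -, h3, h4⟩ := RedZ.red hsit heqv (rules e) q hqS hsum _ v le_rfl hv h0
    refine gn_four C r ?_ h2
    rw [pr_card q h3, pr_congr q h4]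
    exact hc
  intro L u hL hku hu
  have hUUH : gT U (gT Uᴴ u) = u := by
    rw [← a1.gT_mul, hU2, a1.gT_one]
  have hg : (Uᴴ)⁻¹ = U := Matrix.inv_eq_right_inv hU1
  have hu' : ∀ X ∈ h', aT X (gT Uᴴ u) = 0 := by
    intro X hX
    have h1 := a1.gT_aT Uᴴ (U * X * Uᴴ) u (by rw [hg, hU1])
    rw [hku _ ((hm X).1 hX), hg, efor] at h1
    rw [← h1]
    funext w
    simp [gT]
  have hnull : ∀ w, gT Uᴴ u w ≠ 0 →
      ∀ T, ShZ.Zt h' a' T → ((Finset.univ.val.map w).map T).sum = 0 := by
    intro w hw T hT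
    have h4 := congrFun (hu' _ (hzt T hT)) w
    rw [P5e.aT_diag, Pi.zero_apply] at h4
    have h5 := (mul_eq_zero.1 h4).resolve_right hw
    rw [Multiset.map_map]
    exact h5
  -- the words in the new coordinates
  have hword : ∀ w, gT Uᴴ u w ≠ 0 → ∃ ε : ℤˣ, Gn G r ε (Finset.univ.val.map w) ∧
        ∏ j, k (r (w j)) = (((ε : ℤ) : ℝ) : ℂ) := by
    intro w hw
    obtain ⟨w0, h2, h3⟩ : ∃ w0, u w0 ≠ 0 ∧ ∀ j, Uᴴ (w j) (w0 j) ≠ 0 := by
      by_contra hc
      push Not at hc
      apply hw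
      show ∑ w' : Fin L → I, (∏ i, Uᴴ (w i) (w' i)) * u w' = 0
      refine Finset.sum_eq_zero fun w' _ => ?_
      by_cases h0 : u w' = 0
      · rw [h0, mul_zero]
      · obtain ⟨j, hj⟩ := hc w' h0
        rw [Finset.prod_eq_zero (Finset.mem_univ j) hj, zero_mul]
    have h4 : ∀ j, a (w0 j) = a (r (w j)) := by
      intro j
      refine har _ _ fun h0 => h3 j ?_
      rw [Matrix.conjTranspose_apply, h0, star_zero]
    obtain ⟨ε, h5, h6⟩ := hu w0 h2
    refine ⟨ε, ⟨List.ofFn w, ?_, ?_⟩, ?_⟩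
    · rw [Fin.univ_val_map]
    · refine C.blk ε _ _ ?_ h5
      rw [List.map_ofFn, List.map_map, List.map_ofFn]
      congr 1
      funext j
      exact h4 j
    · rw [← h6]
      exact Finset.prod_congr rfl fun j _ => hak _ _ (h4 j).symm
  have hkU : diagonal k * U = U * diagonal fun j => k (r j) := by
    ext i j
    rw [Matrix.diagonal_mul, Matrix.mul_diagonal]
    by_cases h0 : U i j = 0
    · simp [h0]
    · rw [hak _ _ (har i j h0), mul_comm]
  have hfix : gT (diagonal fun j => k (r j)) (gT Uᴴ u) = gT Uᴴ u := by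
    funext w
    rw [P5e.gT_diag]
    by_cases h0 : gT Uᴴ u w = 0
    · rw [h0, mul_zero]
    · obtain ⟨ε, h6, h7⟩ := hword w h0
      have h8 := main ε _ h6 (hnull w h0) (by
        -- an even number of odd classes, at most five classes
        have h9 := R4z.pr_even q w hL
        have h10 : (pr q (Finset.univ.val.map w)).card ≤ Fintype.card B := Finset.card_le_univ _
        obtain ⟨n, hn⟩ := h9
        omega)
      rw [h7, h8]
      simp
  calc gT (diagonal k) u = gT (diagonal k) (gT U (gT Uᴴ u)) := by rw [hUUH]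
    _ = gT U (gT (diagonal fun j => k (r j)) (gT Uᴴ u)) := by
        rw [← a1.gT_mul, hkU, a1.gT_mul]
    _ = u := by rw [hfix, hUUH]

end Pool.Agent.Lib.MP_361a6f_ag.FL.E.EB.R4z

namespace Pool.Agent.Lib.MP_361a6f_ag.FL.E.EB

/-- Row R4z. -/
theorem r4z : R4zStatement := R4z.core BR.LemL.lemL (BR.Iso.iso4a BR.r3)

end Pool.Agent.Lib.MP_361a6f_ag.FL.E.EB
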