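import Pool.Agent.Lib.MP_361a6f_ag.FL.E5.W1X
import Pool.Agent.Lib.MP_361a6f_ag.FL.E.BR.R6a
import Pool.Agent.Lib.MP_361a6f_ag.FL.EB.Defs

/-!
# Theorem EB, row W1z: the situation at every level, with the sequence and the calculus
-/

set_option autoImplicit false
set_option linter.unusedSectionVars false

open Filter Topology MeasureTheory Matrix

namespace Pool.Agent.Lib.MP_361a6f_ag.FL.E.EB

open BR.R6a G1 in
/-- Rows W1B and R6a in one. -/
theorem w1bz {I Λ : Type} [Fintype I] [DecidableEq I] [DecidableEq Λ] (D : Dat I Λ)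
    (At Bt : (L : ℕ) → Ten I L → Prop) (l : I → ℂ) (Γ : Set (Matrix I I ℂ))
    {β : Type} [Fintype β] (lb : β → ℕ) (b : Tup I lb) (P : CSys D At Bt l Γ lb b) (m : ℕ) :
    ∃ (ι : Type) (_ : Fintype ι) (len : ι → ℕ) (t s : Tup I len)
      (x : Matrix I I ℂ) (k : I → ℂ), LvlP D At l m len t s x k ∧
      (∃ g : ℕ → Matrix I I ℂ, (∀ j, IsGb D b (g j)) ∧
        Tendsto (fun j => gS (g j) t) atTop (𝓝 s)) ∧
      (∀ N : Matrix I I ℂ, (∀ i j, N i j ≠ 0 → l i = l j) → (∀ L u, At L u → aT N u = 0) →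
        aS N s = 0) ∧
      ∀ i w, s i w * s i (D.τ ∘ w) = t i w * t i (D.τ ∘ w) := by
  obtain ⟨ι, hι, len, t, s, x, k, hlvl, hkl, hst, g, hg, hlim⟩ := E1R.e1q (D := D) (At := At)
    (Bt := Bt) (l := l) (b := b) P.sys P.norm P.tau P.fix P.rsys P.sub P.base P.bmem
    (fun x hx hxb i j => by
      obtain ⟨z, hz, rfl⟩ := P.comm x hx hxb
      refine ⟨fun hij => Matrix.diagonal_apply_ne _ hij, fun hij => ?_⟩
      rw [Matrix.diagonal_apply_eq, Matrix.diagonal_apply_eq, hz i j hij])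
    P.nd m
  refine ⟨ι, hι, len, t, s, x, k, ⟨hlvl, hkl, fun i hi => hst i fun g hg => ?_⟩, ⟨g, hg, hlim⟩,
    fun N hN hk => ?_, ?_⟩
  · obtain ⟨z, hz, rfl⟩ := P.comm g hg.1 hg.2
    exact two_fix P.tau hz hg.1 hi (P.fix _ _ (hlvl.mem i))
  · funext i
    change aT N (s i) = 0
    have h1 : Tendsto (fun j => gT (g j) (t i)) atTop (𝓝 (s i)) := (tendsto_pi_nhds.mp hlim) i
    have h2 : Tendsto (fun j => aT N (gT (g j) (t i))) atTop (𝓝 (aT N (s i))) :=
      ((aT_cont N _).tendsto _).comp h1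
    have h3 : (fun j => aT N (gT (g j) (t i))) = fun _ => 0 := by
      funext j
      obtain ⟨z, hz, hz'⟩ := P.comm (g j) (hg j).1 (hg j).2
      refine kill (alg1.G_inv D _ (hg j).1).2.1 ?_ (hk _ _ (hlvl.mem i))
      rw [hz']
      exact blk_comm hN hz
    rw [h3] at h2
    exact tendsto_nhds_unique h2 tendsto_const_nhds
  · intro i w
    have h1 : ∀ v : Fin (len i) → I,
        Tendsto (fun j => gT (g j) (t i) v) atTop (𝓝 (s i v)) := fun v =>
      (tendsto_pi_nhds.mp ((tendsto_pi_nhds.mp hlim) i)) v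
    have h2 := (h1 w).mul (h1 (D.τ ∘ w))
    have h3 : (fun j => gT (g j) (t i) w * gT (g j) (t i) (D.τ ∘ w)) =
        fun _ => t i w * t i (D.τ ∘ w) := by
      funext j
      obtain ⟨z, hz, hzg⟩ := P.comm (g j) (hg j).1 (hg j).2
      have hG := (hg j).1
      rw [hzg] at hG ⊢
      have hzt : ∀ i, z i * z (D.τ i) = 1 := by
        intro i
        have h1 := congrFun (congrFun hG.2 i) (D.τ i)
        rw [Matrix.diagonal_transpose, Matrix.mul_diagonal, Matrix.diagonal_mul] at h1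
        simp only [Psi, Matrix.of_apply, if_true] at h1
        have h2 : D.s i ≠ 0 := by
          rcases D.s_val i with h | h <;> rw [h]
          · exact one_ne_zero
          · exact neg_ne_zero.2 one_ne_zero
        have h3 : (z i * z (D.τ i) - 1) * D.s i = 0 := by linear_combination h1
        rcases mul_eq_zero.1 h3 with h4 | h4
        · exact sub_eq_zero.1 h4
        · exact absurd h4 h2
      rw [E1P.gT_diag, E1P.gT_diag]
      have h4 : (∏ j, z (w j)) * (∏ j, z ((D.τ ∘ w) j)) = 1 := by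
        rw [← Finset.prod_mul_distrib]
        exact Finset.prod_eq_one fun j _ => hzt (w j)
      linear_combination (t i w * t i (D.τ ∘ w)) * h4
    rw [h3] at h2
    exact tendsto_nhds_unique h2 tendsto_const_nhds

/-- **Row W1z.** -/
theorem w1z : W1zStatement := by
  intro I Λ _ _ _ D At Bt l Γ β _ lb b hC hF m
  obtain ⟨ι, hι, len, t, s, x, k, hL, hg, hN, hst⟩ := w1bz D At Bt l Γ lb b hC m
  have S : E5.BSys D Bt l := E5.bsys hC.rsys hC.odd hC.typ_eq hC.tau hF
  refine ⟨ι, hι, len, t, s, x, k, hL, hg, hN, fun e v => E5.GoodM D Bt (v : Multiset I) e,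
    E5.calc_good S, fun i w hw => ?_⟩
  have hkn : ∀ i, ‖k i‖ = 1 := by
    intro i
    have h1 := congrFun (congrFun hL.lvl.cpt.2 i) i
    rw [Matrix.mul_diagonal, Matrix.conjTranspose_apply, Matrix.diagonal_apply_eq,
      Matrix.one_apply_eq] at h1
    have h2 : ((‖k i‖ ^ 2 : ℝ) : ℂ) = 1 := by
      rw [← h1, mul_comm, Complex.ofReal_pow]
      exact (Complex.mul_conj' (k i)).symm
    have h3 : ‖k i‖ ^ 2 = 1 := by exact_mod_cast h2
    have h4 : (0 : ℝ) ≤ ‖k i‖ := norm_nonneg _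
    nlinarith
  obtain ⟨e, h1, h2⟩ := E5.words S (Rsp.mem_RS (hC.sub _ _ (hL.lvl.mem i)))
    (fun h => Six.odd_zero hC.odd (Nat.not_even_iff_odd.1 h) (hC.sys.even _ _ (hL.lvl.mem i)))
    (hst i) hkn (congrFun hL.lvl.key i) w hw
  refine ⟨e, ⟨len i, w, ?_, h2⟩, ?_⟩
  · rw [Fin.univ_val_map]
  · rw [h1]
    push_cast
    rfl

end Pool.Agent.Lib.MP_361a6f_ag.FL.E.EB
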